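import Pool.Agent.Q72.DP.HartDefs
import Pool.Agent.TH133.Ext

/-!
# Joins of hypersurfaces and Hartshorne's conjecture: definitions
-/

open CategoryTheory AlgebraicGeometry

universe u v w

namespace Pool.Agent.Q72.HJ

open Pool.Agent.H914 Pool.Agent.H914.VarClass Pool.Agent.H914.VarClass.Obj Pool.Agent.W492.BB
  Pool.Agent.TH133 Pool.Agent.Q72.DP

variable {k : Type u} [Field k] {𝒱 : VarClass k}

/-- The external product `x × y` on `X × Y`. -/
noncomputable abbrev ep (C : TheoryData.{u, v, 0} 𝒱 ℚ) {X Y : 𝒱.Obj} (x : C.A X) (y : C.A Y) :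
    C.A (X.prod Y) := C.mul (C.up (fst X Y) x) (C.up (snd X Y) y)

/-- A class of hypersurfaces: for the degree `d` and the number `s`, the relation `Hyp d s X h`
means (for the problem): `X` is a smooth hypersurface in projective space with an equation
`g(x) + ∑_{i ≤ s} (y_i ^ d + z_i ^ d) = 0` of degree `d` (the form `g` and the `2 s` powers are in
separate variables), `dim X ≥ 1`, and `h` is the class of a hyperplane section. -/
abbrev HypFam (C : TheoryData.{u, v, 0} 𝒱 ℚ) : Type (max (u + 1) v) :=
  ℕ → ℕ → (X : 𝒱.Obj) → C.A X → Prop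

/-- `Crv d T l` means (for the problem): `T` is a smooth plane curve of degree `d` and `l` is the
class of the intersection of `T` with a line. -/
abbrev CrvFam (C : TheoryData.{u, v, 0} 𝒱 ℚ) : Type (max (u + 1) v) :=
  ℕ → (T : 𝒱.Obj) → C.A T → Prop

variable (C : TheoryData.{u, v, 0} 𝒱 ℚ)

/-- The known properties of the class `h` of a hyperplane section of a smooth hypersurface `X` of
degree `d`: `h · A^i(X)` is spanned by `h^(i+1)`, and `h^n` has degree `d` for `n = dim X`. -/
structure IsSection (d : ℕ) {X : 𝒱.Obj} (h : C.A X) : Prop where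
  deg : C.Deg 1 h
  mul : ∀ (i : ℕ) (z : C.A X), C.Deg i z → ∃ q : ℚ, h * z = q • h ^ (i + 1)
  top : HasDegree C (h ^ X.dim) d

/-- Let `X : g(x) = 0` be a smooth hypersurface of degree `d ≥ 2` with hyperplane class `h` and
`W : g(x) + y^d + z^d = 0` with hyperplane class `h'`. For each of the `d` points `v` with
`y^d + z^d = 0`, `x = 0` the variety `W` contains the cone over `X` with vertex `v`; two such cones
meet transversally in `X`. The lines of such a cone which pass through `v` form a projective line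
bundle `p : P → X`, with a map `q` to `W`; `q'` is the map of the same bundle which belongs to
another vertex `v'`. Properties: if `b` is a class on `X` then the restriction of the cone over `b`
with vertex `v` to the cone with vertex `v'` is the class `b` on `X`, and the restriction of
`h'^(a+1)` has the direct image `h^a` on `X`. -/
structure IsCones {X W P : 𝒱.Obj} (h : C.A X) (h' : C.A W) (p : P ⟶ X) (q q' : P ⟶ W) : Prop where
  dim_eq : W.dim = X.dim + 2
  dim_fam : P.dim = X.dim + 1
  meet : ∀ b : C.A X, C.down p (C.up q' (C.down q (C.up p b))) = b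
  hyper : ∀ a : ℕ, C.down p (C.up q' (h' ^ (a + 1))) = h ^ a

/-- Let `X : g(x) = 0` be a smooth hypersurface and `T : f(y_0, y_1, y_2) = 0` a smooth plane curve
of the same degree `d ≥ 2` with hyperplane classes `h` and `l`, and `W : g(x) + f(y) = 0` with
hyperplane class `h'`. The variety `W` contains all lines which join a point of `X` and a point of
`T`; they form a projective line bundle `p : P → X × T`, with a map `q` to `W`. Properties: the
composition `p_* q^* q_* p^*` is the multiplication by `-d`, up to classes in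
`ℚ[h] ⊗ A(T) + A(X) ⊗ ℚ[l]`, and `p_* q^* (h'^(a+2)) = h^(a+1) × 1 + h^a × l`.

(Proof of the first property: let `W'` be the blow-up of `W` in `X`; it maps to the plane of `T`, the
inverse image of `T` is a family of cones over `X` which has multiplicity `d` along the curve `σ` of
the vertices. In the blow-up `W''` of `W'` in `σ` its strict transform is `P`, and the normal bundle
of `P` in `W''` has degree `-d` on the lines. The blow-up formulas for the exceptional divisors, the
products of `X` with the plane and of `T` with the projective space of `X`, give the other terms.) -/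
structure IsLines (d : ℕ) {X T W P : 𝒱.Obj} (h : C.A X) (l : C.A T) (h' : C.A W)
    (p : P ⟶ X.prod T) (q : P ⟶ W) : Prop where
  dim_eq : W.dim = X.dim + 3
  dim_fam : P.dim = X.dim + 2
  back : ∀ (a : ℕ) (c : C.A (X.prod T)), C.Deg (a + 1) c →
    ∃ (s : C.A T) (u u' : C.A X), C.Deg 1 s ∧ C.Deg (a + 1) u ∧ C.Deg a u' ∧
      C.down p (C.up q (C.down q (C.up p c))) =
        -(d : ℚ) • c + ep C (h ^ a) s + ep C u 1 + ep C u' l
  hyper : ∀ a : ℕ, C.down p (C.up q (h' ^ (a + 2))) = ep C (h ^ (a + 1)) 1 + ep C (h ^ a) l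

/-- Known facts about smooth hypersurfaces of degree `d ≥ 1`:
* `hyp`, `crv`: hyperplane sections of hypersurfaces and of plane curves;
* `cover`: if `X : g(x) = 0` is a smooth hypersurface of degree `d`, in general coordinates, then
  `X' : g(x_0^e, x_1^e, ...) = 0` is a smooth hypersurface of degree `d e` which is a finite
  covering of `X`; `cover'`: the same for plane cubic curves;
* `points`, `lines`: the joins with `y^d + z^d = 0` and with smooth plane curves. -/
structure IsHypersurfaces (Hyp : HypFam C) (Crv : CrvFam C) : Prop where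
  hyp : ∀ (d s : ℕ) (X : 𝒱.Obj) (h : C.A X), Hyp d s X h → IsSection C d h
  crv : ∀ (d : ℕ) (T : 𝒱.Obj) (l : C.A T), Crv d T l → T.dim = 1 ∧ C.Deg 1 l ∧ HasDegree C l d
  cover : ∀ (d e : ℕ) (X : 𝒱.Obj) (h : C.A X), 1 ≤ d → 1 ≤ e → Hyp d 0 X h →
    ∃ (X' : 𝒱.Obj) (h' : C.A X') (π : X' ⟶ X) (q : ℚ), Hyp (d * e) 0 X' h' ∧ X'.dim = X.dim ∧
      q ≠ 0 ∧ C.down π 1 = q • (1 : C.A X) ∧ C.up π h = (e : ℚ) • h'
  cover' : ∀ (e : ℕ) (T : 𝒱.Obj) (l : C.A T), 1 ≤ e → Crv 3 T l →
    ∃ (T' : 𝒱.Obj) (l' : C.A T') (π : T' ⟶ T) (q : ℚ), Crv (3 * e) T' l' ∧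
      q ≠ 0 ∧ C.down π 1 = q • (1 : C.A T)
  points : ∀ (d s : ℕ) (X : 𝒱.Obj) (h : C.A X), 3 ≤ d → Hyp d s X h →
    ∃ (W P : 𝒱.Obj) (h' : C.A W) (p : P ⟶ X) (q q' : P ⟶ W), Hyp d (s + 1) W h' ∧
      IsCones C h h' p q q'
  lines : ∀ (d : ℕ) (X T : 𝒱.Obj) (h : C.A X) (l : C.A T), 3 ≤ d → Hyp d 0 X h → Crv d T l →
    ∃ (W P : 𝒱.Obj) (h' : C.A W) (p : P ⟶ X.prod T) (q : P ⟶ W), Hyp d 0 W h' ∧
      IsLines C d h l h' p q

/-- The theorem of C. Schoen on exterior products: for every class `z ≠ 0` in `A^j(X)` (with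
rational coefficients) there are a plane cubic curve `E` and a zero-cycle `t` of degree zero on `E`
with `z × t ≠ 0` (`E` and `t` are general in comparison with `X` and `z`). -/
def NonzeroProducts (Crv : CrvFam C) : Prop :=
  ∀ (X : 𝒱.Obj) (j : ℕ) (z : C.A X), C.Deg j z → z ≠ 0 →
    ∃ (E : 𝒱.Obj) (l t : C.A E), Crv 3 E l ∧ C.Deg 1 t ∧ HasDegree C t 0 ∧ ep C z t ≠ 0

variable {C}

/-- `A^i(X)` is spanned by `h^i` for all the hypersurfaces `X` of dimension `n` with
`Hyp d s X h`. -/
def Spanned (Hyp : HypFam C) (d s n i : ℕ) : Prop :=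
  ∀ (X : 𝒱.Obj) (h : C.A X), Hyp d s X h → X.dim = n → SpannedBy h i

end Pool.Agent.Q72.HJ
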