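import Pool.Agent.Q72.HJ.Defs
import Pool.Agent.Q72.DP.Hart

/-!
# Joins of hypersurfaces and Hartshorne's conjecture
-/

open CategoryTheory AlgebraicGeometry

universe u v w

namespace Pool.Agent.Q72.HJ

open Pool.Agent.H914 Pool.Agent.H914.VarClass Pool.Agent.H914.VarClass.Obj Pool.Agent.W492.BB
  Pool.Agent.W550.Corr Pool.Agent.TH133 Pool.Agent.Q72.DP

set_option linter.unusedSectionVars false

variable {k : Type u} [Field k] {𝒱 : VarClass k} {C : TheoryData.{u, v, 0} 𝒱 ℚ}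
  [hC : IsChowProj C]

include hC

lemma gr_cast {X : 𝒱.Obj} {i j : ℤ} {x : C.A X} (hx : C.Deg i x) (h : i = j) : C.Deg j x := h ▸ hx

lemma ep_def {X Y : 𝒱.Obj} (x : C.A X) (y : C.A Y) :
    ep C x y = C.pull (fst X Y) x * C.pull (snd X Y) y := rfl

lemma push_ep_fst {X Y : 𝒱.Obj} (x : C.A X) {y : C.A Y} {q : ℚ} (hq : HasDegree C y q) :
    C.push (fst X Y) (ep C x y) = q • x := by
  rw [ep_def, C.proj_left, (hq X).2, mul_smul_comm, mul_one]

lemma push_ep_snd {X Y : 𝒱.Obj} {x : C.A X} (y : C.A Y) {q : ℚ} (hq : HasDegree C x q) :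
    C.push (snd X Y) (ep C x y) = q • y := by
  rw [ep_def, C.proj_right, (hq Y).1, smul_mul_assoc, one_mul]

lemma push_fst_zero {X Y : 𝒱.Obj} (x : C.A X) {y : C.A Y} {i : ℤ} (hy : C.Deg i y)
    (hi : i < Y.dim) : C.push (fst X Y) (ep C x y) = 0 := by
  have h1 : C.push (fst X Y) (C.pull (snd X Y) y) = 0 := by
    have h2 := C.push_mem (fst X Y) (C.pull_mem (snd X Y) hy)
    have h3 := hC.isTheory.isGradedRing.gr_neg X _ (show i + 1 * ((X.dim : ℤ) - (X.prod Y).dim) < 0
      by rw [dim_prod]; push_cast; omega)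
    rw [h3] at h2
    exact (Submodule.mem_bot ℚ).1 h2
  rw [ep_def, C.proj_left, h1, mul_zero]

lemma ep_mul {X Y : 𝒱.Obj} (x x' : C.A X) (y y' : C.A Y) :
    ep C x y * ep C x' y' = ep C (x * x') (y * y') := by
  simp only [ep_def, map_mul]
  generalize C.pull (fst X Y) x = a
  generalize C.pull (snd X Y) y = b
  generalize C.pull (fst X Y) x' = c
  generalize C.pull (snd X Y) y' = d
  rw [mul_assoc, ← mul_assoc b, ch_comm C b c]
  simp only [mul_assoc]

lemma ep_zero_right {X Y : 𝒱.Obj} (x : C.A X) : ep C x (0 : C.A Y) = 0 := by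
  rw [ep_def, map_zero, mul_zero]

lemma ep_zero_left {X Y : 𝒱.Obj} (y : C.A Y) : ep C (0 : C.A X) y = 0 := by
  rw [ep_def, map_zero, zero_mul]

lemma ep_smul_left {X Y : 𝒱.Obj} (q : ℚ) (x : C.A X) (y : C.A Y) :
    ep C (q • x) y = q • ep C x y := by
  rw [ep_def, ep_def, map_smul, smul_mul_assoc]

lemma ep_smul_right {X Y : 𝒱.Obj} (q : ℚ) (x : C.A X) (y : C.A Y) :
    ep C x (q • y) = q • ep C x y := by
  rw [ep_def, ep_def, map_smul, mul_smul_comm]

lemma ep_sub_left {X Y : 𝒱.Obj} (x x' : C.A X) (y : C.A Y) :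
    ep C (x - x') y = ep C x y - ep C x' y := by
  rw [ep_def, ep_def, ep_def, map_sub, sub_mul]

lemma ep_sub_right {X Y : 𝒱.Obj} (x : C.A X) (y y' : C.A Y) :
    ep C x (y - y') = ep C x y - ep C x y' := by
  rw [ep_def, ep_def, ep_def, map_sub, mul_sub]

lemma pow_deg {X : 𝒱.Obj} {h : C.A X} (hh : C.Deg 1 h) (n : ℕ) : C.Deg n (h ^ n) := by
  induction n with
  | zero =>
    rw [pow_zero]
    exact hC.isTheory.isGradedRing.one_mem X
  | succ n ih =>
    rw [pow_succ]
    exact gr_cast (C.mul_mem ih hh) (by push_cast; ring)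

/-- The join with points: if the classes in `A^(a+1)(W)` are multiples of `h'^(a+1)` then the classes
in `A^a(X)` are multiples of `h^a`. -/
theorem cones_step {X W P : 𝒱.Obj} {h : C.A X} {h' : C.A W} {p : P ⟶ X} {q q' : P ⟶ W}
    (hJ : IsCones C h h' p q q') {a : ℕ} (hs : SpannedBy h' (a + 1)) : SpannedBy h a := by
  intro b hb
  have h1 : C.Deg ((a + 1 : ℕ) : ℤ) (C.push q (C.pull p b)) := by
    refine gr_cast (C.push_mem q (C.pull_mem p hb)) ?_
    rw [hJ.dim_eq, hJ.dim_fam]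
    push_cast
    ring
  obtain ⟨c, hc⟩ := hs _ h1
  refine ⟨c, ?_⟩
  have h2 := hJ.meet b
  change C.push p (C.pull q' (C.push q (C.pull p b))) = b at h2
  rw [hc, map_smul, map_smul] at h2
  rw [← h2]
  congr 1
  exact hJ.hyper a

/-- The join with a plane curve. -/
theorem lines_step {d : ℕ} (hd : d ≠ 0) {X T W P : 𝒱.Obj} {h : C.A X} {l : C.A T} {h' : C.A W}
    {p : P ⟶ X.prod T} {q : P ⟶ W} (hX : IsSection C d h) (hT : T.dim = 1) (hl : C.Deg 1 l)
    (hld : HasDegree C l d) (hJ : IsLines C d h l h' p q) {a : ℕ} (ha : a < X.dim) {b : C.A X}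
    (hb : C.Deg a b) (hb0 : h * b = 0) {t : C.A T} (ht : C.Deg 1 t) (ht0 : HasDegree C t 0)
    (hne : ep C b t ≠ 0) : ¬ SpannedBy h' (a + 2) := by
  intro hs
  have hd' : (d : ℚ) ≠ 0 := by exact_mod_cast hd
  have hbt : C.Deg ((a : ℤ) + 1) (ep C b t) :=
    C.mul_mem (C.pull_mem (fst X T) hb) (C.pull_mem (snd X T) ht)
  have h1 : C.Deg ((a + 2 : ℕ) : ℤ) (C.push q (C.pull p (ep C b t))) := by
    refine gr_cast (C.push_mem q (C.pull_mem p hbt)) ?_
    rw [hJ.dim_eq, hJ.dim_fam]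
    push_cast
    ring
  obtain ⟨μ, hμ⟩ := hs _ h1
  obtain ⟨s, u₀, u₁, hsd, hu₀, hu₁, hback⟩ := hJ.back a (ep C b t) hbt
  have h2 : μ • (ep C (h ^ (a + 1)) (1 : C.A T) + ep C (h ^ a) l) =
      -(d : ℚ) • ep C b t + ep C (h ^ a) s + ep C u₀ 1 + ep C u₁ l := by
    rw [← hback, ← hJ.hyper a]
    change μ • C.push p (C.pull q (h' ^ (a + 2))) = C.push p (C.pull q (C.push q (C.pull p _)))
    rw [hμ, map_smul, map_smul]
  -- the equation `d (b × t) = h^a × s + v × 1 + v' × l`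
  set v₀ : C.A X := u₀ - μ • h ^ (a + 1) with hv₀
  set v₁ : C.A X := u₁ - μ • h ^ a with hv₁
  have h3 : (d : ℚ) • ep C b t = ep C (h ^ a) s + ep C v₀ (1 : C.A T) + ep C v₁ l := by
    rw [hv₀, hv₁, ep_sub_left, ep_sub_left, ep_smul_left, ep_smul_left]
    rw [smul_add, neg_smul] at h2
    have h4 : (d : ℚ) • ep C b t = ep C (h ^ a) s + ep C u₀ 1 + ep C u₁ l -
        (μ • ep C (h ^ (a + 1)) (1 : C.A T) + μ • ep C (h ^ a) l) := by
      rw [h2]
      abel
    rw [h4]
    abel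
  have hone : C.Deg (0 : ℤ) (1 : C.A T) := hC.isTheory.isGradedRing.one_mem T
  have hsT : C.Deg (T.dim : ℤ) s := by rw [hT]; exact hsd
  obtain ⟨σ, hσ⟩ := exists_hasDegree hsT
  -- step 1
  have h5 : v₁ = (-(σ / d)) • h ^ a := by
    have h6 := congrArg (C.push (fst X T)) h3
    rw [map_smul, map_add, map_add, push_ep_fst b ht0, push_ep_fst _ hσ,
      push_fst_zero v₀ hone (by rw [hT]; norm_num), push_ep_fst _ hld, zero_smul, smul_zero,
      add_zero] at h6
    have h7 : (d : ℚ) • v₁ = -(σ • h ^ a) := by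
      rw [eq_neg_iff_add_eq_zero, add_comm]
      exact h6.symm
    rw [← inv_smul_smul₀ hd' v₁, h7, smul_neg, smul_smul, neg_smul, div_eq_inv_mul]
  set s' : C.A T := s - (σ / d) • l with hs'
  have h8 : (d : ℚ) • ep C b t = ep C (h ^ a) s' + ep C v₀ (1 : C.A T) := by
    rw [h3, h5, hs', ep_sub_right, ep_smul_left, ep_smul_right, neg_smul]
    abel
  have hs'd : C.Deg 1 s' := Submodule.sub_mem _ hsd (Submodule.smul_mem _ _ hl)
  have hzero : ∀ y : C.A T, C.Deg 1 y → y * l = 0 := fun y hy =>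
    hC.gr_top T (1 + 1) _ (C.mul_mem hy hl) (by rw [hT]; norm_num)
  -- step 2
  have h9 : v₀ = 0 := by
    have h10 := congrArg (fun x => x * ep C (1 : C.A X) l) h8
    simp only [add_mul, smul_mul_assoc, ep_mul, mul_one, one_mul] at h10
    rw [hzero t ht, hzero s' hs'd, ep_zero_right, ep_zero_right, smul_zero, zero_add] at h10
    have h11 := congrArg (C.push (fst X T)) h10
    rw [map_zero, push_ep_fst _ hld] at h11
    exact (smul_eq_zero.1 h11.symm).resolve_left hd'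
  rw [h9, ep_zero_left, add_zero] at h8
  -- step 3
  have h12 : s' = 0 := by
    have h13 := congrArg (fun x => x * ep C (h ^ (X.dim - a)) (1 : C.A T)) h8
    simp only [smul_mul_assoc, ep_mul, mul_one] at h13
    have e1 : b * h ^ (X.dim - a) = 0 := by
      have : X.dim - a = 1 + (X.dim - a - 1) := by omega
      rw [this, pow_add, pow_one, ← mul_assoc, ch_comm C b h, hb0, zero_mul]
    have e2 : h ^ a * h ^ (X.dim - a) = h ^ X.dim := by
      rw [← pow_add]
      congr 1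
      omega
    rw [e1, e2, ep_zero_left, smul_zero] at h13
    have h14 := congrArg (C.push (snd X T)) h13
    rw [map_zero, push_ep_snd _ hX.top] at h14
    exact (smul_eq_zero.1 h14.symm).resolve_left hd'
  rw [h12, ep_zero_right] at h8
  exact hne ((smul_eq_zero.1 h8).resolve_left hd')

/-- Coverings of hypersurfaces. -/
theorem cover_step {X X' : 𝒱.Obj} {h : C.A X} {h' : C.A X'} {π : X' ⟶ X} {q e : ℚ} (hq : q ≠ 0)
    (he : e ≠ 0) (hπ : C.push π 1 = q • (1 : C.A X)) (hh : C.pull π h = e • h') {i : ℕ}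
    (hs : SpannedBy h' i) : SpannedBy h i := by
  intro z hz
  obtain ⟨c, hc⟩ := hs (C.pull π z) (C.pull_mem π hz)
  have h1 : h' ^ i = (e ^ i)⁻¹ • C.pull π (h ^ i) := by
    rw [map_pow, hh, smul_pow, smul_smul, inv_mul_cancel₀ (pow_ne_zero i he), one_smul]
  have h2 : ∀ y : C.A X, C.push π (C.pull π y) = q • y := by
    intro y
    have h3 : C.push π (C.pull π y * 1) = y * C.push π 1 := C.proj_left π 1 y
    rw [mul_one, hπ, mul_smul_comm, mul_one] at h3
    exact h3
  have h4 := congrArg (C.push π) hc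
  rw [h2, h1, map_smul, map_smul, h2] at h4
  refine ⟨c * (e ^ i)⁻¹, ?_⟩
  rw [← inv_smul_smul₀ hq z, h4]
  simp only [smul_smul]
  congr 1
  field_simp

/-- Coverings of plane cubics: non-zero products on plane curves of degree `3 e`. -/
lemma exists_product {Hyp : HypFam C} {Crv : CrvFam C} (hH : IsHypersurfaces C Hyp Crv)
    (hP : NonzeroProducts C Crv) {e : ℕ} (he : 1 ≤ e) {X : 𝒱.Obj} {j : ℕ} {z : C.A X}
    (hz : C.Deg j z) (h0 : z ≠ 0) :
    ∃ (T : 𝒱.Obj) (l t : C.A T), Crv (3 * e) T l ∧ C.Deg 1 t ∧ HasDegree C t 0 ∧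
      ep C z t ≠ 0 := by
  obtain ⟨E, l, t, hE, ht, ht0, hne⟩ := hP X j z hz h0
  obtain ⟨T, l', π, q, hT, hq, hπ⟩ := hH.cover' e E l he hE
  have hEd := (hH.crv 3 E l hE).1
  replace hπ : C.push π 1 = q • (1 : C.A E) := hπ
  have hTd := (hH.crv (3 * e) T l' hT).1
  refine ⟨T, l', C.pull π t, hT, C.pull_mem π ht, ?_, ?_⟩
  · have h1 : C.Deg (T.dim : ℤ) (C.pull π t) := by
      rw [hTd]
      exact C.pull_mem π ht
    obtain ⟨r, hr⟩ := exists_hasDegree h1
    have h2 : r = 0 := by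
      have h3 : C.push (fst X E) (ep C z t) = 0 := by rw [push_ep_fst z ht0, zero_smul]
      have h4 : C.push (prodMap (𝟙 X) π) (ep C z (C.pull π t)) = q • ep C z t := by
        have h5 := push_ext C (𝟙 X) π z (C.pull π t)
        have h6 : C.push π (C.pull π t) = q • t := by
          have h7 : C.push π (C.pull π t * 1) = t * C.push π 1 := C.proj_left π 1 t
          rw [mul_one, hπ, mul_smul_comm, mul_one] at h7
          exact h7
        rw [h6, C.push_id] at h5
        exact h5.trans (ep_smul_right q z t)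
      have h8 : C.push (fst X T) (ep C z (C.pull π t)) = r • z := push_ep_fst z hr
      have h9 : prodMap (𝟙 X) π ≫ fst X E = fst X T := by
        rw [prodMap, lift_fst, Category.comp_id]
      rw [← h9, C.push_comp, h4, map_smul, h3, smul_zero] at h8
      exact (smul_eq_zero.1 h8.symm).resolve_right h0
    rwa [h2] at hr
  · intro h1
    have h4 : C.push (prodMap (𝟙 X) π) (ep C z (C.pull π t)) = q • ep C z t := by
      have h5 := push_ext C (𝟙 X) π z (C.pull π t)
      have h6 : C.push π (C.pull π t) = q • t := by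
        have h7 : C.push π (C.pull π t * 1) = t * C.push π 1 := C.proj_left π 1 t
        rw [mul_one, hπ, mul_smul_comm, mul_one] at h7
        exact h7
      rw [h6, C.push_id] at h5
      exact h5.trans (ep_smul_right q z t)
    rw [h1, map_zero] at h4
    exact hne ((smul_eq_zero.1 h4.symm).resolve_left hq)

section family

variable {Hyp : HypFam C} {Crv : CrvFam C} (hH : IsHypersurfaces C Hyp Crv)

include hH

lemma spanned_points {d s n i : ℕ} (hd : 3 ≤ d) (h : Spanned Hyp d (s + 1) (n + 2) (i + 1)) :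
    Spanned Hyp d s n i := by
  intro X x hX hn
  obtain ⟨W, P, h', p, q, q', hW, hJ⟩ := hH.points d s X x hd hX
  exact cones_step hJ (h W h' hW (by rw [hJ.dim_eq, hn]))

lemma spanned_points_iter {d n i : ℕ} (hd : 3 ≤ d) (s k : ℕ)
    (h : Spanned Hyp d (s + k) (n + 2 * k) (i + k)) : Spanned Hyp d s n i := by
  induction k generalizing s n i with
  | zero => exact h
  | succ k ih =>
    refine spanned_points hH hd (ih (s + 1) ?_)
    have e1 : s + 1 + k = s + (k + 1) := by ring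
    have e2 : n + 2 + 2 * k = n + 2 * (k + 1) := by ring
    have e3 : i + 1 + k = i + (k + 1) := by ring
    rw [e1, e2, e3]
    exact h

lemma spanned_lines (hP : NonzeroProducts C Crv) {e n i : ℕ} (he : 1 ≤ e) (hi : i < n)
    (h : Spanned Hyp (3 * e) 0 (n + 3) (i + 2)) : Spanned Hyp (3 * e) 0 n i := by
  intro X x hX hn
  have hs := hH.hyp (3 * e) 0 X x hX
  by_contra hc
  obtain ⟨z, hz, hz'⟩ : ∃ z : C.A X, C.Deg i z ∧ ∀ q : ℚ, z ≠ q • x ^ i := by
    by_contra hcon
    push Not at hcon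
    exact hc fun z hz => hcon z hz
  obtain ⟨c, hc'⟩ := hs.mul i z hz
  have hb : C.Deg i (z - c • x ^ i) :=
    Submodule.sub_mem _ hz (Submodule.smul_mem _ _ (pow_deg hs.deg i))
  have hb0 : x * (z - c • x ^ i) = 0 := by
    rw [mul_sub, hc', mul_smul_comm, ← pow_succ', sub_self]
  obtain ⟨T, l, t, hT, ht, ht0, hne⟩ := exists_product hH hP he hb (sub_ne_zero.2 (hz' c))
  obtain ⟨hTd, hl, hld⟩ := hH.crv (3 * e) T l hT
  obtain ⟨W, P, h', p, q, hW, hJ⟩ := hH.lines (3 * e) X T x l (by omega) hX hT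
  exact lines_step (by omega) hs hTd hl hld hJ (by omega) hb hb0 ht ht0 hne
    (h W h' hW (by rw [hJ.dim_eq, hn]))

lemma spanned_lines_iter (hP : NonzeroProducts C Crv) {e n i : ℕ} (he : 1 ≤ e) (hi : i < n)
    (k : ℕ) (h : Spanned Hyp (3 * e) 0 (n + 3 * k) (i + 2 * k)) : Spanned Hyp (3 * e) 0 n i := by
  induction k generalizing n i with
  | zero => exact h
  | succ k ih =>
    refine spanned_lines hH hP he hi (ih (by omega) ?_)
    have e1 : n + 3 + 3 * k = n + 3 * (k + 1) := by ring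
    have e2 : i + 2 + 2 * k = i + 2 * (k + 1) := by ring
    rw [e1, e2]
    exact h

/-- The reduction to the middle codimension for one degree divisible by `3`. -/
theorem spanned_of_middle (hP : NonzeroProducts C Crv) {e n i : ℕ} (he : 1 ≤ e) (hi : 2 * i < n)
    {m : ℕ} (hm : i + 2 * (n - 2 * i - 1) ≤ m)
    (h : Spanned Hyp (3 * e) (m - (i + 2 * (n - 2 * i - 1))) (2 * m + 1) m) :
    Spanned Hyp (3 * e) 0 n i := by
  refine spanned_lines_iter hH hP he (by omega) (n - 2 * i - 1) ?_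
  refine spanned_points_iter hH (by omega) 0 (m - (i + 2 * (n - 2 * i - 1))) ?_
  have e1 : n + 3 * (n - 2 * i - 1) + 2 * (m - (i + 2 * (n - 2 * i - 1))) = 2 * m + 1 := by omega
  have e2 : i + 2 * (n - 2 * i - 1) + (m - (i + 2 * (n - 2 * i - 1))) = m := by omega
  rw [e1, e2, zero_add]
  exact h

lemma spanned_cover {d e n i : ℕ} (hd : 1 ≤ d) (he : 1 ≤ e) (h : Spanned Hyp (d * e) 0 n i) :
    Spanned Hyp d 0 n i := by
  intro X x hX hn
  obtain ⟨X', h', π, q, hX', hdim, hq, hπ, hh⟩ := hH.cover d e X x hd he hX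
  exact cover_step hq (by exact_mod_cast (by omega : e ≠ 0)) hπ hh (h X' h' hX' (by rw [hdim, hn]))

/-- Hartshorne's conjecture for one degree divisible by `3`. -/
theorem one_degree (hP : NonzeroProducts C Crv) {d : ℕ} (hd : 1 ≤ d) (h3 : 3 ∣ d) :
    (∀ n i : ℕ, 2 * i < n → Spanned Hyp d 0 n i) ↔
      ∀ r : ℕ, ∃ m : ℕ, r ≤ m ∧ Spanned Hyp d (m - r) (2 * m + 1) m := by
  constructor
  · intro h r
    refine ⟨r, le_rfl, ?_⟩
    rw [Nat.sub_self]
    exact h _ _ (by omega)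
  · intro h n i hi
    obtain ⟨e, rfl⟩ := h3
    obtain ⟨m, hm, h1⟩ := h (i + 2 * (n - 2 * i - 1))
    exact spanned_of_middle hH hP (by omega) hi hm h1

/-- Hartshorne's conjecture for a set of degrees. -/
theorem some_degrees (hP : NonzeroProducts C Crv) (D : Set ℕ)
    (hD : ∀ d ∈ D, 1 ≤ d ∧ ∃ e ∈ D, d ∣ e ∧ 3 ∣ e) :
    (∀ d ∈ D, ∀ n i : ℕ, 2 * i < n → Spanned Hyp d 0 n i) ↔
      ∀ d ∈ D, ∀ r : ℕ, ∃ e ∈ D, ∃ m : ℕ, d ∣ e ∧ r ≤ m ∧
        Spanned Hyp e (m - r) (2 * m + 1) m := by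
  constructor
  · intro h d hd r
    refine ⟨d, hd, r, dvd_rfl, le_rfl, ?_⟩
    rw [Nat.sub_self]
    exact h _ hd _ _ (by omega)
  · intro h d hd n i hi
    obtain ⟨hd1, d₁, hd₁, h1, h2⟩ := hD d hd
    obtain ⟨e, he, m, h3, hm, h4⟩ := h d₁ hd₁ (i + 2 * (n - 2 * i - 1))
    have he1 := (hD e he).1
    obtain ⟨a, rfl⟩ := h2.trans h3
    have h5 := spanned_of_middle hH hP (by omega) hi hm h4
    obtain ⟨b, hb⟩ := h1.trans h3
    rw [hb] at h5 he1
    exact spanned_cover hH hd1 (Nat.pos_of_ne_zero fun h0 => by simp [h0] at he1) h5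

end family

end Pool.Agent.Q72.HJ
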