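import Pool.Agent.Q72.HJ.Main

/-!
# Joins of hypersurfaces: correspondences between hypersurfaces
-/

open CategoryTheory AlgebraicGeometry

universe u v w

namespace Pool.Agent.Q72.HJ

open Pool.Agent.H914 Pool.Agent.H914.VarClass Pool.Agent.H914.VarClass.Obj Pool.Agent.W492.BB
  Pool.Agent.W550.Corr Pool.Agent.TH133 Pool.Agent.Q72.DP

variable {k : Type u} [Field k] {𝒱 : VarClass k}

/-- The classes of codimension `i` on `X × Y` which are sums of classes `h^a × y` and `x × l^a`
(`y` a class of codimension `i - a` on `Y`, and `x` a class of codimension `i - a` on `X`). -/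
noncomputable def Mixed (C : TheoryData.{u, v, 0} 𝒱 ℚ) {X Y : 𝒱.Obj} (h : C.A X) (l : C.A Y) (i : ℕ) :
    Submodule ℚ (C.A (X.prod Y)) :=
  Submodule.span ℚ ({c | ∃ (a : ℕ) (y : C.A Y), C.Deg ((i : ℤ) - a) y ∧ c = ep C (h ^ a) y} ∪
    {c | ∃ (a : ℕ) (x : C.A X), C.Deg ((i : ℤ) - a) x ∧ c = ep C x (l ^ a)})

/-- Let `X : g(x) = 0` and `Y : f(y) = 0` be smooth hypersurfaces of the same degree `d ≥ 2` with
hyperplane classes `h`, `l`, and `W : g(x) + f(y) = 0` with hyperplane class `h'`. The variety `W`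
contains all lines which join a point of `X` and a point of `Y`; they form a projective line bundle
`p : P → X × Y`, with a map `q` to `W`. Properties: for a class `c` of codimension `a` the class
`p_* q^* q_* p^* c + d c` is in `ℚ[h] ⊗ A(Y) + A(X) ⊗ ℚ[l]`, and so is
`p_* q^* (h'^(a+1)) = ∑ h^b × l^(a-b)`.

(Proof of the first property: let `W'` be the blow-up of `W` in `Y`; it maps to the projective space
which contains `X`, the inverse image of `X` is a family of cones over `Y` which has multiplicity `d`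
along the set `σ` of the vertices, which is isomorphic to `X`. In the blow-up `W''` of `W'` in `σ` its
strict transform is `P`, and the normal bundle of `P` in `W''` has degree `-d` on the lines. The
blow-up formulas for the two exceptional divisors, products of `Y` and of `X` with projective spaces,
give the other terms.) -/
structure IsJoin (C : TheoryData.{u, v, 0} 𝒱 ℚ) (d : ℕ) {X Y W P : 𝒱.Obj} (h : C.A X) (l : C.A Y)
    (h' : C.A W) (p : P ⟶ X.prod Y) (q : P ⟶ W) : Prop where
  dim_eq : W.dim = X.dim + Y.dim + 2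
  dim_fam : P.dim = X.dim + Y.dim + 1
  back : ∀ (a : ℕ) (c : C.A (X.prod Y)), C.Deg a c →
    C.down p (C.up q (C.down q (C.up p c))) + (d : ℚ) • c ∈ Mixed C h l a
  hyper : ∀ a : ℕ, C.down p (C.up q (h' ^ (a + 1))) ∈ Mixed C h l a

/-- Known facts about the smooth hypersurfaces `X` of degree `d ≥ 2` and dimension `≥ 1` with
hyperplane class `h` (the relation `Hyp X h`): the joins, and the existence of a smooth surface of
degree `d` with a divisor class `b` with `l · b = 0` and `b^2 ≠ 0` (for instance the difference of two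
lines on the Fermat surface). -/
structure HasJoins (C : TheoryData.{u, v, 0} 𝒱 ℚ) (d : ℕ) (Hyp : (X : 𝒱.Obj) → C.A X → Prop) :
    Prop where
  join : ∀ (X Y : 𝒱.Obj) (h : C.A X) (l : C.A Y), Hyp X h → Hyp Y l →
    ∃ (W P : 𝒱.Obj) (h' : C.A W) (p : P ⟶ X.prod Y) (q : P ⟶ W), Hyp W h' ∧
      IsJoin C d h l h' p q
  surface : ∃ (Y : 𝒱.Obj) (l b : C.A Y) (r : ℚ), Hyp Y l ∧ Y.dim = 2 ∧ C.Deg 1 b ∧ l * b = 0 ∧
    HasDegree C (b * b) r ∧ r ≠ 0

variable {C : TheoryData.{u, v, 0} 𝒱 ℚ} [hC : IsChowProj C]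

include hC

/-- Hartshorne's conjecture for the hypersurfaces of degree `d` is equivalent to the decomposability
of the correspondences in `A^i(X × Y)`, `i < (dim X + dim Y) / 2`. -/
theorem hartshorne_iff_correspondences {d : ℕ} (hd : 1 ≤ d) {Hyp : (X : 𝒱.Obj) → C.A X → Prop}
    (hH : HasJoins C d Hyp) :
    (∀ (X : 𝒱.Obj) (h : C.A X), Hyp X h → ∀ i : ℕ, 2 * i < X.dim → SpannedBy h i) ↔
      ∀ (X Y : 𝒱.Obj) (h : C.A X) (l : C.A Y), Hyp X h → Hyp Y l → ∀ i : ℕ,
        2 * i < X.dim + Y.dim → ∀ c : C.A (X.prod Y), C.Deg i c → c ∈ Mixed C h l i := by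
  have hd' : (d : ℚ) ≠ 0 := by exact_mod_cast (by omega : d ≠ 0)
  constructor
  · intro hs X Y h l hX hY i hi c hc
    obtain ⟨W, P, h', p, q, hW, hJ⟩ := hH.join X Y h l hX hY
    have h1 : C.Deg ((i + 1 : ℕ) : ℤ) (C.push q (C.pull p c)) := by
      refine gr_cast (C.push_mem q (C.pull_mem p hc)) ?_
      rw [hJ.dim_eq, hJ.dim_fam]
      push_cast
      ring
    obtain ⟨μ, hμ⟩ := hs W h' hW (i + 1) (by rw [hJ.dim_eq]; omega) _ h1
    have h2 := hJ.back i c hc
    change C.push p (C.pull q (C.push q (C.pull p c))) + (d : ℚ) • c ∈ _ at h2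
    rw [hμ, map_smul, map_smul] at h2
    have h3 := Submodule.sub_mem _ h2 (Submodule.smul_mem _ μ (hJ.hyper i))
    rw [add_sub_assoc] at h3
    have h4 : μ • C.push p (C.pull q (h' ^ (i + 1))) + ((d : ℚ) • c -
        μ • C.down p (C.up q (h' ^ (i + 1)))) = (d : ℚ) • c := by
      change μ • C.push p (C.pull q (h' ^ (i + 1))) + ((d : ℚ) • c -
        μ • C.push p (C.pull q (h' ^ (i + 1)))) = (d : ℚ) • c
      abel
    rw [h4] at h3
    have h5 := Submodule.smul_mem _ (d : ℚ)⁻¹ h3
    rwa [inv_smul_smul₀ hd'] at h5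
  · intro hm X h hX i hi z hz
    obtain ⟨Y, l, b, r, hY, hYd, hb, hlb, hbb, hr⟩ := hH.surface
    have h1 : C.Deg ((i + 1 : ℕ) : ℤ) (ep C z b) :=
      gr_cast (C.mul_mem (C.pull_mem (fst X Y) hz) (C.pull_mem (snd X Y) hb)) (by push_cast; ring)
    have h2 := hm X Y h l hX hY (i + 1) (by omega) _ h1
    -- the linear map `c ↦ fst_* (c · snd^* b)`
    let φ : C.A (X.prod Y) →ₗ[ℚ] C.A X :=
      (C.push (fst X Y)).comp (LinearMap.mulRight ℚ (ep C (1 : C.A X) b))
    have hφ : ∀ (x : C.A X) (y : C.A Y), φ (ep C x y) = C.push (fst X Y) (ep C x (y * b)) := by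
      intro x y
      change C.push (fst X Y) (ep C x y * ep C 1 b) = _
      rw [ep_mul, mul_one]
    have h3 : φ (ep C z b) = r • z := by rw [hφ, push_ep_fst z hbb]
    have h4 : ∀ c ∈ Mixed C h l (i + 1), φ c ∈ Submodule.span ℚ {h ^ i} := by
      intro c hc
      induction hc using Submodule.span_induction with
      | mem c hc =>
        rcases hc with ⟨a, y, hy, rfl⟩ | ⟨a, x, hx, rfl⟩
        · rw [hφ]
          have h5 : C.Deg (((i + 1 : ℕ) : ℤ) - a + 1) (y * b) := C.mul_mem hy hb
          rcases lt_trichotomy a i with h6 | h6 | h6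
          · have h7 : y * b = 0 := hC.gr_top Y _ _ h5 (by rw [hYd]; push_cast; omega)
            rw [h7, ep_zero_right, map_zero]
            exact Submodule.zero_mem _
          · subst h6
            obtain ⟨σ, hσ⟩ := exists_hasDegree
              (gr_cast h5 (by rw [hYd]; push_cast; ring) : C.Deg (Y.dim : ℤ) (y * b))
            rw [push_ep_fst _ hσ]
            exact Submodule.smul_mem _ _ (Submodule.mem_span_singleton_self _)
          · rw [push_fst_zero _ h5 (by rw [hYd]; push_cast; omega)]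
            exact Submodule.zero_mem _
        · rw [hφ]
          rcases Nat.eq_zero_or_pos a with rfl | ha
          · rw [pow_zero, one_mul, push_fst_zero x hb (by rw [hYd]; norm_num)]
            exact Submodule.zero_mem _
          · have h5 : l ^ a * b = 0 := by
              obtain ⟨a', rfl⟩ : ∃ a', a = a' + 1 := ⟨a - 1, by omega⟩
              rw [pow_succ, mul_assoc, hlb, mul_zero]
            rw [h5, ep_zero_right, map_zero]
            exact Submodule.zero_mem _
      | zero =>
        rw [map_zero]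
        exact Submodule.zero_mem _
      | add x y _ _ hx hy =>
        rw [map_add]
        exact Submodule.add_mem _ hx hy
      | smul t x _ hx =>
        rw [map_smul]
        exact Submodule.smul_mem _ t hx
    have h5 := h4 _ h2
    rw [h3, Submodule.mem_span_singleton] at h5
    obtain ⟨s, hs⟩ := h5
    refine ⟨r⁻¹ * s, ?_⟩
    rw [mul_smul, hs, inv_smul_smul₀ hr]

end Pool.Agent.Q72.HJ
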